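import Pool.Graph.R_seed8.W561.ZT.E2

/-!
# Enlargement of the hub set for the subgroup of order two, all finite abelian groups

This is the library's part E2 of project ZT (MP_12e153_co) with one more conclusion: every other
subgroup of order two is satisfied by the enlarged hub set. The library uses that a cyclic group
has only one subgroup of order two. The text of `finish'` and `e2'` follows the library's `finish`
and `e2`.
-/

open scoped Classical

set_option autoImplicit false

namespace Pool.Agent.KS6_4.ZT

open Pool.Agent.W593.ZT Pool.Agent.W561.ZT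

/-- E2 with the other subgroups of order two -/
def S_E2' : Prop := ∀ (V G : Type) [Fintype V] [AddCommGroup G] [Fintype G] (c : V → V → G),
  Ctx c → ∀ (M : AddSubgroup G) (B : Finset V), Nat.card M = 2 → 2 ≤ B.card → B.card ≤ 5 →
  (nc c M Finset.univ B).card + 2 ≤ M.index → Fintype.card G ≤ FF c B + 1 →
  ∃ H : Finset V, B ⊆ H ∧ Fintype.card G ≤ FF c H + 1 ∧
    M.index ≤ (nc c M Finset.univ H).card + 1 ∧
    (∀ M' : AddSubgroup G, Nat.card M' = 2 → M' ≠ M →
      M'.index ≤ (nc c M' Finset.univ H).card + 1) ∧
    Fintype.card G ≤ 2 * (Finset.univ \ H).card ∧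
    ∃ E ⊆ Finset.univ \ H, H.card ≤ 4 + E.card ∧
      ∀ z ∈ E, ∃ x ∈ Cs c H z, ∃ y ∈ Cs c H z, x ≠ y ∧ x - y ∈ M

/-- Two different subgroups of order two meet in zero. -/
theorem inter_two {G : Type} [AddCommGroup G] [Fintype G] {M N : AddSubgroup G}
    (h : Nat.card M = 2) (h' : Nat.card N = 2) (hne : M ≠ N) {x : G} (hx : x ∈ M)
    (hy : x ∈ N) : x = 0 := by
  by_contra h0
  have key : ∀ L : AddSubgroup G, Nat.card L = 2 → x ∈ L → L = AddSubgroup.zmultiples x := by
    intro L hL hxL
    symm
    apply AddSubgroup.eq_of_le_of_card_ge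
    · rwa [AddSubgroup.zmultiples_le]
    · rw [hL]
      have : 1 < Nat.card (AddSubgroup.zmultiples x) := by
        rw [AddSubgroup.one_lt_card_iff_ne_bot, ne_eq, AddSubgroup.zmultiples_eq_bot]
        exact h0
      omega
  exact hne ((key M h hx).trans (key N h' hy).symm)

section claim
variable {V G : Type} [Fintype V] [AddCommGroup G] [Fintype G]

/-- from the claim to the conclusion -/
lemma finish' (c : V → V → G) (hc : Ctx c) (M : AddSubgroup G) (B : Finset V)
    (hM : Nat.card M = 2) (hB2 : 2 ≤ B.card) (hB5 : B.card ≤ 5)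
    (hnu : (nc c M Finset.univ B).card + 2 ≤ M.index) (hFF : Fintype.card G ≤ FF c B + 1)
    (hG : Fintype.card G = 2 * M.index)
    (U E1 : Finset V) (hU : U = (Finset.univ \ B) \ nc c M Finset.univ B)
    (hE1 : E1 = U.filter (fun z => (Cs c B z).card = 2))
    (hE1c : 2 * M.index ≤ E1.card + 2 * (nc c M Finset.univ B).card + 1)
    (hbn : B.card ≤ (nc c M Finset.univ B).card + 2)
    (P L : Finset V) (hP : P ⊆ U) (hL : L ⊆ U \ P)
    (hPc : P.card + (nc c M Finset.univ B).card + 1 ≤ M.index)
    (hLc : L.card + (nc c M Finset.univ B).card + 1 = M.index)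
    (hPL : ∀ z ∈ L, ∃ h ∈ P, ∀ b ∈ B, c z h - c z b ∉ M) :
    ∃ H : Finset V, B ⊆ H ∧ Fintype.card G ≤ FF c H + 1 ∧
    M.index ≤ (nc c M Finset.univ H).card + 1 ∧
    (∀ M' : AddSubgroup G, Nat.card M' = 2 → M' ≠ M →
      M'.index ≤ (nc c M' Finset.univ H).card + 1) ∧
    Fintype.card G ≤ 2 * (Finset.univ \ H).card ∧
    ∃ E ⊆ Finset.univ \ H, H.card ≤ 4 + E.card ∧
      ∀ z ∈ E, ∃ x ∈ Cs c H z, ∃ y ∈ Cs c H z, x ≠ y ∧ x - y ∈ M := by
  have hUmem : ∀ z, z ∈ U ↔ z ∉ B ∧ Tc M (Cs c B z) := by
    intro z
    rw [hU, Finset.mem_sdiff, Finset.mem_sdiff, mem_nc]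
    simp only [Finset.mem_univ, true_and]
    tauto
  obtain ⟨b0, hb0⟩ : B.Nonempty := Finset.card_pos.1 (by omega)
  have hdisjBP : Disjoint B P := by
    rw [Finset.disjoint_left]
    intro z hz hzP
    exact ((hUmem z).1 (hP hzP)).1 hz
  have hBH : B ⊆ B ∪ P := Finset.subset_union_left
  have hcardH : (B ∪ P).card = B.card + P.card := Finset.card_union_of_disjoint hdisjBP
  have hcardV : Fintype.card V = 2 * M.index + 1 := by rw [hc.card, hG]
  have hcompl : (Finset.univ \ (B ∪ P)).card + (B ∪ P).card = 2 * M.index + 1 := by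
    rw [Finset.card_sdiff_add_card_eq_card (Finset.subset_univ _), Finset.card_univ, hcardV]
  have hLU : ∀ z ∈ L, z ∉ B ∧ z ∉ P ∧ Tc M (Cs c B z) := by
    intro z hz
    have h1 := Finset.mem_sdiff.1 (hL hz)
    have h2 := (hUmem z).1 h1.1
    exact ⟨h2.1, h1.2, h2.2⟩
  have hLsub : L ⊆ Finset.univ \ (B ∪ P) := by
    intro z hz
    have := hLU z hz
    simp only [Finset.mem_sdiff, Finset.mem_univ, Finset.mem_union, true_and]
    tauto
  refine ⟨B ∪ P, hBH, ?_, ?_, ?_, ?_, E1 \ P, ?_, ?_, ?_⟩
  · -- FF
    have hsplit : FF c B = ∑ z ∈ P, (min (Cs c B z).card 3 - 1) +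
        ∑ z ∈ Finset.univ \ (B ∪ P), (min (Cs c B z).card 3 - 1) := by
      unfold FF
      rw [← Finset.sum_union]
      · congr 1
        ext z
        simp only [Finset.mem_sdiff, Finset.mem_univ, Finset.mem_union, true_and]
        constructor
        · intro h; by_cases hz : z ∈ P
          · exact Or.inl hz
          · exact Or.inr (fun h' => h'.elim h hz)
        · rintro (h | h)
          · exact fun h' => Finset.disjoint_left.1 hdisjBP h' h
          · exact fun h' => h (Or.inl h')
      · rw [Finset.disjoint_left]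
        intro z hz hz'
        simp only [Finset.mem_sdiff, Finset.mem_univ, Finset.mem_union, true_and] at hz'
        exact hz' (Or.inr hz)
    have hPs : ∑ z ∈ P, (min (Cs c B z).card 3 - 1) ≤ P.card := by
      calc _ ≤ ∑ z ∈ P, 1 := Finset.sum_le_sum (fun z hz => by
            have := card_Tc hM ((hUmem z).1 (hP hz)).2
            have := min_le_left (Cs c B z).card 3
            omega)
        _ = P.card := by simp
    have hmain : ∑ z ∈ Finset.univ \ (B ∪ P), (min (Cs c B z).card 3 - 1) + L.card ≤
        FF c (B ∪ P) := by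
      have e : L.card = ∑ z ∈ Finset.univ \ (B ∪ P), if z ∈ L then 1 else 0 := by
        rw [Finset.sum_ite_mem, Finset.sum_const, smul_eq_mul, mul_one,
          Finset.inter_eq_right.2 hLsub]
      rw [e, ← Finset.sum_add_distrib]
      unfold FF
      refine Finset.sum_le_sum fun z hz => ?_
      have hsub := Cs_mono c hBH z
      have hle := Finset.card_le_card hsub
      have hpos : 0 < (Cs c B z).card := Finset.card_pos.2 ⟨_, mem_Cs c hb0 z⟩
      by_cases hzL : z ∈ L
      · rw [if_pos hzL]
        obtain ⟨h1, h2, h3⟩ := hLU z hzL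
        obtain ⟨h, hhP, hh⟩ := hPL z hzL
        have hlt : (Cs c B z).card < (Cs c (B ∪ P) z).card := by
          refine Finset.card_lt_card (Finset.ssubset_iff_subset_ne.2 ⟨hsub, ?_⟩)
          intro heq
          have hm : c z h ∈ Cs c B z := by
            rw [heq]
            exact mem_Cs c (Finset.mem_union_right _ hhP) z
          obtain ⟨b, hb, hb'⟩ := Finset.mem_image.1 hm
          exact hh b hb (by rw [hb', sub_self]; exact M.zero_mem)
        have h4 := card_Tc hM h3
        omega
      · rw [if_neg hzL]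
        omega
    omega
  · -- nc
    have hsub : nc c M Finset.univ B ∪ L ⊆ nc c M Finset.univ (B ∪ P) := by
      intro z hz
      rw [mem_nc]
      rcases Finset.mem_union.1 hz with hz | hz
      · have h1 := mem_nc.1 hz
        have hzP : z ∉ P := fun h => h1.2 ((hUmem z).1 (hP h)).2
        refine ⟨⟨Finset.mem_univ _, ?_⟩, fun h => h1.2 (Tc_mono (Cs_mono c hBH z) h)⟩
        simp only [Finset.mem_union]
        exact fun h => h.elim h1.1.2 hzP
      · obtain ⟨h1, h2, h3⟩ := hLU z hz
        obtain ⟨h, hhP, hh⟩ := hPL z hz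
        refine ⟨⟨Finset.mem_univ _, ?_⟩, fun hT => ?_⟩
        · simp only [Finset.mem_union]
          exact fun h => h.elim h1 h2
        · exact hh b0 hb0 (hT _ (mem_Cs c (Finset.mem_union_right _ hhP) z) _
            (mem_Cs c (Finset.mem_union_left _ hb0) z))
    have hdis : Disjoint (nc c M Finset.univ B) L := by
      rw [Finset.disjoint_left]
      intro z hz hzL
      exact (mem_nc.1 hz).2 (hLU z hzL).2.2
    have h1 := Finset.card_le_card hsub
    rw [Finset.card_union_of_disjoint hdis] at h1
    omega
  · -- the other subgroups of order two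
    intro M' hM' hne
    have hidx : M'.index = M.index := by
      have h1 : Nat.card M' * M'.index = Nat.card G := AddSubgroup.card_mul_index M'
      rw [hM', Nat.card_eq_fintype_card, hG] at h1
      omega
    set N3 := (nc c M Finset.univ B).filter (fun z => 3 ≤ (Cs c B z).card) with hN3
    have hsub : (E1 \ P) ∪ N3 ⊆ nc c M' Finset.univ (B ∪ P) := by
      intro z hz
      rw [mem_nc]
      rcases Finset.mem_union.1 hz with hz | hz
      · have h1 := Finset.mem_sdiff.1 hz
        rw [hE1] at h1
        have h2 := Finset.mem_filter.1 h1.1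
        have h3 := (hUmem z).1 h2.1
        refine ⟨⟨Finset.mem_univ _, ?_⟩, fun hT => ?_⟩
        · simp only [Finset.mem_union]
          exact fun h => h.elim h3.1 h1.2
        · obtain ⟨x, y, hxy, hxy'⟩ := Finset.card_eq_two.1 h2.2
          have hx : x ∈ Cs c B z := by rw [hxy']; simp
          have hy : y ∈ Cs c B z := by rw [hxy']; simp
          exact hxy (sub_eq_zero.1 (inter_two hM' hM hne
            (hT x (Cs_mono c hBH z hx) y (Cs_mono c hBH z hy)) (h3.2 x hx y hy)))
      · rw [hN3] at hz
        have h1 := Finset.mem_filter.1 hz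
        have h2 := mem_nc.1 h1.1
        have hzP : z ∉ P := fun h => h2.2 ((hUmem z).1 (hP h)).2
        refine ⟨⟨Finset.mem_univ _, ?_⟩, fun hT => ?_⟩
        · simp only [Finset.mem_union]
          exact fun h => h.elim h2.1.2 hzP
        · have h3 := card_Tc hM' (Tc_mono (Cs_mono c hBH z) hT)
          omega
    have hdis : Disjoint (E1 \ P) N3 := by
      rw [Finset.disjoint_left]
      intro z hz hzN
      have h1 := Finset.mem_sdiff.1 hz
      rw [hE1] at h1
      have h2 := (hUmem z).1 (Finset.mem_filter.1 h1.1).1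
      exact (mem_nc.1 (Finset.mem_filter.1 hzN).1).2 h2.2
    have h1 := Finset.card_le_card hsub
    rw [Finset.card_union_of_disjoint hdis] at h1
    have h2 := Finset.le_card_sdiff P E1
    have hncsub : nc c M Finset.univ B ⊆ Finset.univ \ B := Finset.filter_subset _ _
    have hff : FF c B ≤ E1.card + ((nc c M Finset.univ B).card + N3.card) := by
      have h2 : FF c B = ∑ z ∈ U, (min (Cs c B z).card 3 - 1) +
          ∑ z ∈ nc c M Finset.univ B, (min (Cs c B z).card 3 - 1) := by
        unfold FF
        rw [hU, Finset.sum_sdiff hncsub]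
      have h3 : ∑ z ∈ U, (min (Cs c B z).card 3 - 1) ≤ E1.card := by
        rw [hE1, Finset.card_filter]
        refine Finset.sum_le_sum fun z hz => ?_
        have := card_Tc hM ((hUmem z).1 hz).2
        split_ifs with h
        · omega
        · omega
      have h4 : ∑ z ∈ nc c M Finset.univ B, (min (Cs c B z).card 3 - 1) ≤
          (nc c M Finset.univ B).card + N3.card := by
        rw [hN3, Finset.card_filter, Finset.card_eq_sum_ones, ← Finset.sum_add_distrib]
        refine Finset.sum_le_sum fun z hz => ?_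
        split_ifs with h
        · omega
        · omega
      omega
    omega
  · rw [hG]
    omega
  · intro z hz
    have h1 := Finset.mem_sdiff.1 hz
    rw [hE1] at h1
    have h2 := (hUmem z).1 (Finset.mem_filter.1 h1.1).1
    simp only [Finset.mem_sdiff, Finset.mem_univ, Finset.mem_union, true_and]
    exact fun h => h.elim h2.1 h1.2
  · have h1 := Finset.le_card_sdiff P E1
    omega
  · intro z hz
    have h1 := Finset.mem_sdiff.1 hz
    rw [hE1] at h1
    have h2 := Finset.mem_filter.1 h1.1
    have h3 := (hUmem z).1 h2.1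
    obtain ⟨x, y, hxy, hxy'⟩ := Finset.card_eq_two.1 h2.2
    have hx : x ∈ Cs c B z := by rw [hxy']; simp
    have hy : y ∈ Cs c B z := by rw [hxy']; simp
    exact ⟨x, Cs_mono c hBH z hx, y, Cs_mono c hBH z hy, hxy, h3.2 x hx y hy⟩

theorem e2' : S_HL → S_NSL → S_E2' := by
  intro hHL hNSL V G _ _ _ c hc M B hM hB2 hB5 hnu hFF
  have hG : Fintype.card G = 2 * M.index := by
    rw [← Nat.card_eq_fintype_card, ← M.card_mul_index, hM]
  set U : Finset V := (Finset.univ \ B) \ nc c M Finset.univ B with hU
  set E1 : Finset V := U.filter (fun z => (Cs c B z).card = 2) with hE1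
  have hUmem : ∀ z, z ∈ U ↔ z ∉ B ∧ Tc M (Cs c B z) := by
    intro z
    rw [hU, Finset.mem_sdiff, Finset.mem_sdiff, mem_nc]
    simp only [Finset.mem_univ, true_and]
    tauto
  obtain ⟨b0, hb0⟩ : B.Nonempty := Finset.card_pos.1 (by omega)
  have hcardV : Fintype.card V = 2 * M.index + 1 := by rw [hc.card, hG]
  have hncsub : nc c M Finset.univ B ⊆ Finset.univ \ B := Finset.filter_subset _ _
  have hUcard : U.card + (nc c M Finset.univ B).card + B.card = 2 * M.index + 1 := by
    have h1 : U.card + (nc c M Finset.univ B).card = (Finset.univ \ B).card :=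
      Finset.card_sdiff_add_card_eq_card hncsub
    have h2 : (Finset.univ \ B).card + B.card = 2 * M.index + 1 := by
      rw [Finset.card_sdiff_add_card_eq_card (Finset.subset_univ _), Finset.card_univ, hcardV]
    omega
  have hE1U : E1 ⊆ U := Finset.filter_subset _ _
  have hE1card : E1.card ≤ U.card := Finset.card_le_card hE1U
  have hE1c : 2 * M.index ≤ E1.card + 2 * (nc c M Finset.univ B).card + 1 := by
    have h1 : FF c B ≤ E1.card + 2 * (nc c M Finset.univ B).card := by
      have h2 : FF c B = ∑ z ∈ U, (min (Cs c B z).card 3 - 1) +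
          ∑ z ∈ nc c M Finset.univ B, (min (Cs c B z).card 3 - 1) := by
        unfold FF
        rw [hU, Finset.sum_sdiff hncsub]
      have h3 : ∑ z ∈ U, (min (Cs c B z).card 3 - 1) ≤ E1.card := by
        rw [hE1, Finset.card_filter]
        refine Finset.sum_le_sum fun z hz => ?_
        have := card_Tc hM ((hUmem z).1 hz).2
        split_ifs with h
        · omega
        · omega
      have h4 : ∑ z ∈ nc c M Finset.univ B, (min (Cs c B z).card 3 - 1) ≤
          2 * (nc c M Finset.univ B).card := by
        calc _ ≤ ∑ z ∈ nc c M Finset.univ B, 2 := Finset.sum_le_sum (fun z _ => by omega)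
          _ = _ := by simp [mul_comm]
      omega
    omega
  have hbn : B.card ≤ (nc c M Finset.univ B).card + 2 := by omega
  -- it suffices to find `P` and `L`
  suffices hclaim : ∃ P L : Finset V, P ⊆ U ∧ L ⊆ U \ P ∧
      P.card + (nc c M Finset.univ B).card + 1 ≤ M.index ∧
      L.card + (nc c M Finset.univ B).card + 1 = M.index ∧
      ∀ z ∈ L, ∃ h ∈ P, ∀ b ∈ B, c z h - c z b ∉ M by
    obtain ⟨P, L, hP, hL, hPc, hLc, hPL⟩ := hclaim
    exact finish' c hc M B hM hB2 hB5 hnu hFF hG U E1 hU hE1 hE1c hbn P L hP hL hPc hLc hPL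
  by_cases hbeta : ∀ z ∈ U, ∃ h ∈ U, h ≠ z ∧ c z h - c z b0 ∉ M
  · -- case beta: the half lemma
    obtain ⟨P, L, hP, hL, hPL, hLc⟩ := hHL V (G ⧸ M) U
      (fun z => (QuotientAddGroup.mk (c z b0) : G ⧸ M))
      (fun x y => (QuotientAddGroup.mk (c x y) : G ⧸ M))
      (fun x y => by simp only [hc.sym x y])
      (fun z hz => by
        obtain ⟨h, hh, hne, hn⟩ := hbeta z hz
        refine ⟨h, hh, hne, fun heq => hn ?_⟩
        have := (QuotientAddGroup.eq_iff_sub_mem).1 heq
        exact this)
    have hLj : M.index - 1 - (nc c M Finset.univ B).card ≤ L.card := by omega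
    obtain ⟨L', hL'L, hL'c⟩ := Finset.exists_subset_card_eq hLj
    have hch : ∀ z ∈ L', ∃ h ∈ P, c z h - c z b0 ∉ M := by
      intro z hz
      obtain ⟨h, hh, hne⟩ := hPL z (hL'L hz)
      refine ⟨h, hh, fun hmem => hne ?_⟩
      exact (QuotientAddGroup.eq_iff_sub_mem).2 hmem
    choose! g hgP hg using hch
    have hP'P : L'.image g ⊆ P := by
      intro x hx
      obtain ⟨z, hz, rfl⟩ := Finset.mem_image.1 hx
      exact hgP z hz
    refine ⟨L'.image g, L', hP'P.trans hP, ?_, ?_, ?_, ?_⟩
    · intro z hz
      have h1 := Finset.mem_sdiff.1 (hL (hL'L hz))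
      exact Finset.mem_sdiff.2 ⟨h1.1, fun h => h1.2 (hP'P h)⟩
    · have := Finset.card_image_le (s := L') (f := g)
      omega
    · omega
    · intro z hz
      refine ⟨g z, Finset.mem_image_of_mem _ hz, fun b hb hmem => hg z hz ?_⟩
      have h1 := Finset.mem_sdiff.1 (hL (hL'L hz))
      have h2 := ((hUmem z).1 h1.1).2 _ (mem_Cs c hb z) _ (mem_Cs c hb0 z)
      have := M.add_mem hmem h2
      rwa [sub_add_sub_cancel] at this
  · -- case alpha
    push Not at hbeta
    obtain ⟨z0, hz0, hz0'⟩ := hbeta
    have hz0U := (hUmem z0).1 hz0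
    set a := c z0 b0 with ha
    have hz0B : ∀ b ∈ B, c z0 b - a ∈ M := fun b hb =>
      hz0U.2 _ (mem_Cs c hb z0) _ (mem_Cs c hb0 z0)
    have hkey : ∀ z ∈ E1, z ≠ z0 → c z b0 - a ∉ M := by
      intro z hz hne hmem
      have hzU : z ∈ U := hE1U hz
      have hzU' := (hUmem z).1 hzU
      have hz2 : (Cs c B z).card = 2 := (Finset.mem_filter.1 hz).2
      have hzz0 : c z z0 - a ∈ M := by
        rw [hc.sym z z0]; exact hz0' z hzU hne
      obtain ⟨x, hx, hxne⟩ : ∃ x ∈ Cs c B z, x ≠ c z z0 :=
        Finset.exists_mem_ne (by omega) _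
      obtain ⟨bi, hbi, rfl⟩ := Finset.mem_image.1 hx
      have hbia : c z bi - a ∈ M := by
        have h1 := hzU'.2 _ (mem_Cs c hbi z) _ (mem_Cs c hb0 z)
        have := M.add_mem h1 hmem
        rwa [sub_add_sub_cancel] at this
      have hdiff : c z z0 - c z bi ∈ M := by
        have := M.sub_mem hzz0 hbia
        rwa [sub_sub_sub_cancel_right] at this
      have hTtop : M ≠ ⊤ := by
        intro h
        rw [h, AddSubgroup.index_top] at hnu
        omega
      have hNS := hNSL V G c hc M a {z0, bi} {z} (fun _ => {c z z0, c z bi}) (fun _ => c z z0)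
        hTtop ⟨z0, by simp⟩ (by
          rw [Finset.disjoint_singleton_right]
          simp only [Finset.mem_insert, Finset.mem_singleton, not_or]
          exact ⟨hne, fun h => hzU'.1 (h ▸ hbi)⟩) (by
          intro w hw
          rw [Finset.mem_singleton.1 hw]
          intro y hy
          simp only [Finset.mem_insert, Finset.mem_singleton] at hy
          rcases hy with rfl | rfl
          · exact mem_Cs c (by simp) z
          · exact mem_Cs c (by simp) z) (by
          intro r0 hr0 s hs
          have h0 := hr0 z (Finset.mem_singleton_self z)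
          rw [Finset.sum_singleton] at hs
          have hs' : s = c z z0 ∨ s = c z bi := by
            simp only [Finset.mem_insert, Finset.mem_singleton] at h0
            rcases h0 with h0 | h0
            · exact full hM (Ne.symm hxne) hdiff (h0 ▸ hs)
            · have := full hM hxne (by
                have := M.neg_mem hdiff
                rwa [neg_sub] at this) (h0 ▸ hs)
              exact this.symm
          refine ⟨s, ⟨fun _ => s, ?_, by simp⟩, by simp⟩
          intro w _
          simp only [Finset.mem_insert, Finset.mem_singleton]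
          exact hs') (by
          intro w _
          simp) (by
          simp only [Finset.sum_singleton, Finset.card_singleton, one_smul]
          exact hzz0)
      -- count
      have hsub : ((U.erase z0).erase z) ∪ (B.erase bi) ⊆
          (Finset.univ \ ({z0, bi} ∪ {z})).filter (fun y => ∃ h ∈ ({z0, bi} : Finset V),
            c y h - a ∈ M) := by
        intro y hy
        rw [Finset.mem_filter]
        simp only [Finset.mem_sdiff, Finset.mem_univ, Finset.mem_union, Finset.mem_insert,
          Finset.mem_singleton, true_and, not_or]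
        rcases Finset.mem_union.1 hy with hy | hy
        · obtain ⟨h1, h2⟩ := Finset.mem_erase.1 hy
          obtain ⟨h3, h4⟩ := Finset.mem_erase.1 h2
          refine ⟨⟨⟨h3, fun h => ((hUmem y).1 h4).1 (h ▸ hbi)⟩, h1⟩, z0, Or.inl rfl, ?_⟩
          rw [hc.sym y z0]
          exact hz0' y h4 h3
        · obtain ⟨h1, h2⟩ := Finset.mem_erase.1 hy
          refine ⟨⟨⟨fun h => hz0U.1 (h ▸ h2), h1⟩, fun h => hzU'.1 (h ▸ h2)⟩, z0, Or.inl rfl, ?_⟩
          rw [hc.sym y z0]
          exact hz0B y h2
      have hdis : Disjoint ((U.erase z0).erase z) (B.erase bi) := by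
        rw [Finset.disjoint_left]
        intro y hy hy'
        exact ((hUmem y).1 (Finset.mem_of_mem_erase (Finset.mem_of_mem_erase hy))).1
          (Finset.mem_of_mem_erase hy')
      have hcc := Finset.card_le_card hsub
      rw [Finset.card_union_of_disjoint hdis, Finset.card_erase_of_mem hbi,
        Finset.card_erase_of_mem (Finset.mem_erase.2 ⟨hne, hzU⟩),
        Finset.card_erase_of_mem hz0] at hcc
      omega
    have hE1j : M.index - 1 - (nc c M Finset.univ B).card ≤ (E1.erase z0).card := by
      have := Finset.pred_card_le_card_erase (s := E1) (a := z0)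
      omega
    obtain ⟨L, hLsub, hLc⟩ := Finset.exists_subset_card_eq hE1j
    refine ⟨{z0}, L, by simpa using hz0, ?_, ?_, ?_, ?_⟩
    · intro z hz
      obtain ⟨h1, h2⟩ := Finset.mem_erase.1 (hLsub hz)
      rw [Finset.mem_sdiff, Finset.mem_singleton]
      exact ⟨hE1U h2, h1⟩
    · rw [Finset.card_singleton]; omega
    · omega
    · intro z hz
      obtain ⟨h1, h2⟩ := Finset.mem_erase.1 (hLsub hz)
      refine ⟨z0, Finset.mem_singleton_self _, fun b hb hmem => hkey z h2 h1 ?_⟩
      have hzU := (hUmem z).1 (hE1U h2)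
      have h3 : c z z0 - a ∈ M := by
        rw [hc.sym z z0]; exact hz0' z (hE1U h2) h1
      have h4 := hzU.2 _ (mem_Cs c hb z) _ (mem_Cs c hb0 z)
      have h5 := M.sub_mem h3 (M.add_mem hmem h4)
      have h6 : c z z0 - a - (c z z0 - c z b + (c z b - c z b0)) = c z b0 - a := by abel
      rwa [h6] at h5

end claim

end Pool.Agent.KS6_4.ZT
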