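import Pool.Graph.R_seed8.W593.ZT.ALL
import Pool.Agent.KS6_4.ZT.E2

/-!
# Zero-sum trees of depth two for all finite abelian groups

The library's main theorem of project ZT (MP_12e153_co) without the assumption that the group is
cyclic. `main'` and `all_main'` follow the library's `main` and `all_main`; the only change is the
use of the stronger part `e2'`.
-/

open scoped Classical

set_option autoImplicit false

namespace Pool.Agent.KS6_4.ZT

open Pool.Agent.W593.ZT

/-- MAIN, for all finite abelian groups -/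
def S_MAIN' : Prop := ∀ (V G : Type) [Fintype V] [AddCommGroup G] [Fintype G]
  (c : V → V → G), (∀ x y, c x y = c y x) → Fintype.card V = Fintype.card G + 1 → DTree c

theorem main' (hTREG : S_TREG) (hBASE : S_BASE) (hE2 : S_E2') (hDIR : S_DIR) (hK4 : S_K4)
    (hK3 : S_K3) : S_MAIN' := by
  intro V G _ _ _ c hc hcard
  by_contra hnot
  have hctx : Ctx c := ⟨hc, hcard, hnot⟩
  by_cases hm : Fintype.card G ≤ 1
  · -- trivial group
    have hsub : Subsingleton G := Fintype.card_le_one_iff_subsingleton.mp hm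
    have hpos : 0 < Fintype.card V := by omega
    obtain ⟨g⟩ := Fintype.card_pos_iff.mp hpos
    apply hnot
    exact ⟨g, fun _ => g, fun v hv => ⟨fun h => hv h.symm, Or.inl rfl⟩, Subsingleton.elim _ _⟩
  push Not at hm
  by_cases hreg : ∃ (x : V) (g1 g2 : G), g1 ≠ g2 ∧ (Rs c x g1 g2).card ≤ 1
  · obtain ⟨x, g1, g2, hg, hR⟩ := hreg
    exact hTREG V G c hctx x g1 g2 hg hR
  push Not at hreg
  obtain ⟨B, hB2, hB5, hff⟩ := hBASE V G c hctx (by omega)
    (fun x g g' hg => by have := hreg x g g' hg; omega)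
  have hBV : (Finset.univ \ B).card + B.card = Fintype.card G + 1 := by
    rw [Finset.card_sdiff_add_card_eq_card (Finset.subset_univ B), Finset.card_univ, hcard]
  by_cases hbad2 : ∃ M : AddSubgroup G, Nat.card M = 2 ∧
      (nc c M Finset.univ B).card + 2 ≤ M.index
  · obtain ⟨M2, hM2, hM2b⟩ := hbad2
    obtain ⟨H, hBH, hHff, hHg, hHo, hH2, E, hE, hHE, hEp⟩ :=
      hE2 V G c hctx M2 B hM2 hB2 hB5 hM2b hff
    have hBne : B.Nonempty := Finset.card_pos.mp (by omega)
    refine fin_aux hDIR hK4 hK3 c hctx H (hBne.mono hBH) hHff ?_ ?_ (fun M _ _ => hH2)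
    · intro M hM
      by_cases hMM : M = M2
      · rw [hMM]
        exact hHg
      · exact hHo M hM hMM
    · intro M hM hMt hMb
      have hEsub : E ⊆ nc c M Finset.univ H := by
        intro z hz
        have hz' := hE hz
        simp only [nc, Finset.mem_filter]
        refine ⟨hz', ?_⟩
        intro hTc
        obtain ⟨x, hx, y, hy, hxy, hxyM⟩ := hEp z hz
        have := hTc x hx y hy
        exact hxy (sub_eq_zero.mp (inter_two_three M2 M hM2 hM hxyM this))
      have hEc := Finset.card_le_card hEsub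
      refine ⟨Or.inr (by omega), ?_⟩
      intro hq
      omega
  · push Not at hbad2
    have hBne : B.Nonempty := Finset.card_pos.mp (by omega)
    refine fin_aux hDIR hK4 hK3 c hctx B hBne hff ?_ ?_ ?_
    · intro M hM
      have := hbad2 M hM
      omega
    · intro M hM hMt hMb
      refine ⟨Or.inl hB5, ?_⟩
      intro hq
      have h1 : Nat.card M * M.index = Nat.card G := AddSubgroup.card_mul_index M
      rw [hM, hq, Nat.card_eq_fintype_card] at h1
      have h2 := FF_le c B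
      omega
    · intro M hM hMt
      have h1 : Nat.card M * M.index = Nat.card G := AddSubgroup.card_mul_index M
      rw [Nat.card_eq_fintype_card (α := G)] at h1
      have h0 : M.index ≠ 0 := AddSubgroup.index_ne_zero_of_finite
      have h2 : M.index ≠ 1 := by
        intro hh
        exact hMt (AddSubgroup.index_eq_one.mp hh)
      have h3 : 4 * 2 ≤ Nat.card M * M.index := Nat.mul_le_mul hM (by omega)
      omega

theorem all_main' : S_MAIN' := by
  have hK2 : S_K2 := Pool.Agent.W509.ZT.k2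
  have hCOMP : S_COMP := Pool.Agent.W509.ZT.comp
  have hC3 : S_C3 := Pool.Agent.W509.ZT.c3
  have hDAV : S_DAV := Pool.Agent.W862.ZT.dav
  have hSUB : S_SUB := Pool.Agent.W862.ZT.sub
  have hTREE : S_TREE := Pool.Agent.W800.ZT.tree
  have hTREE2 : S_TREE2 := Pool.Agent.W179.ZT.tree2 hTREE
  have hMONO : S_MONO := Pool.Agent.W140.ZT.mono
  have hNSL : S_NSL := Pool.Agent.W971.ZT.nsl hK2 hTREE2
  have hHL : S_HL := Pool.Agent.W906.ZT.hl
  have hPLB : S_PLB := Pool.Agent.W585.ZT.plb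
  have hPLF : S_PLF := Pool.Agent.W688.ZT.plf hK2
  have hPLR1 : S_PLR1 := Pool.Agent.W748.ZT.plr1 hK2 hCOMP
  have hOS : S_OS := Pool.Agent.W15.ZT.os hHL
  have hSTEP : S_STEP := step hOS
  have hPLR2 : S_PLR2 := Pool.Agent.W73.ZT.plr2 hK2 hCOMP
  have hPL : S_PL := pl hSTEP hSUB hPLB hPLF hPLR1 hPLR2
  have hDIR : S_DIR := Pool.Agent.W688.ZT.dir hK2 hTREE2
  have hKU : S_KU := Pool.Agent.W212.ZT.ku hPL hK2 hCOMP hTREE2 hNSL
  have hK4 : S_K4 := Pool.Agent.W162.ZT.k4 hKU
  have hK3W : S_K3W := Pool.Agent.W918.ZT.k3w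
  have hK3I : S_K3I := Pool.Agent.W696.ZT.k3i hK3W hC3 hCOMP hTREE2
  have hK3L0 : S_K3L0 := Pool.Agent.W912.ZT.k3l0 hK3W hC3 hNSL
  have hK3D1 : S_K3D1 := Pool.Agent.W486.ZT.k3d1 hK3W hC3 hCOMP hNSL
  have hK3L1 : S_K3L1 := Pool.Agent.W358.ZT.K3L1 hK3W hK3D1
  have hK3L2A : S_K3L2A := Pool.Agent.W28.ZT.k3l2a hK3W hK3D1
  have hK3L2B : S_K3L2B := Pool.Agent.W724.ZT.k3l2b hK3W hC3 hCOMP hNSL hDAV
  have hK3 : S_K3 := k3 hPL hK3W hK3I hK3L0 hK3L1 hK3L2A hK3L2B
  have hE2 : S_E2' := e2' hHL hNSL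
  have hFFN : S_FFN := Pool.Agent.W962.ZT.FFN
  have hGAIN : S_GAIN := Pool.Agent.W557.ZT.gain hMONO
  have hBT : S_BT := Pool.Agent.W446.ZT.bt hGAIN hFFN hMONO
  have hB8 : S_B8 := Pool.Agent.W378.ZT.main hGAIN hFFN
  have hB6 : S_B6 := Pool.Agent.W381.ZT.b6 hMONO
  have hBASE : S_BASE := Pool.Agent.W303.ZT.base hBT hB8 hB6 hMONO
  have hTS : S_TS := Pool.Agent.W249.ZT.ts hMONO
  have hTK2 : S_TK2 := Pool.Agent.W499.ZT.tk2 hNSL
  have hTDIR : S_TDIR := Pool.Agent.W271.ZT.tdir hK2 hTREE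
  have hTK : S_TK := Pool.Agent.W196.ZT.tk hKU
  have hT6 : S_T6 := Pool.Agent.W701.ZT.t6 hC3 hCOMP hTREE2 hNSL
  have hTREG : S_TREG := treg hTS hTK2 hTDIR hTK hT6
  exact main' hTREG hBASE hE2 hDIR hK4 hK3

end Pool.Agent.KS6_4.ZT
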